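import Pool.Agent.Q60.LO.Comb
import Pool.Agent.Y163.MW.Lin

/-!
# Two filtrations: adapted bases, tensor products
-/

set_option autoImplicit false

open Module TensorProduct

namespace Pool.Agent.Q60.PW

universe u v w

/-- Bases adapted to two filtrations. -/
theorem exists_adapted {K : Type w} [Field K] (n : ℕ) :
    ∀ {V : Type v} [AddCommGroup V] [Module K V] [Module.Finite K V],
    finrank K V = n → ∀ W P : ℤ → Submodule K V, Monotone W → Monotone P →
    (∃ a, W a = ⊥) → (∃ a, P a = ⊥) → (∃ c, W c = ⊤) → (∃ c, P c = ⊤) →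
    ∃ (e : Basis (Fin n) K V) (w p : Fin n → ℤ),
      (∀ k, W k = Submodule.span K (e '' {i | w i ≤ k})) ∧
      (∀ k, P k = Submodule.span K (e '' {i | p i ≤ k})) := by
  induction n with
  | zero =>
    intro V _ _ _ hn W P _ _ _ _ _ _
    have : Subsingleton V := finrank_zero_iff.1 hn
    exact ⟨finBasisOfFinrankEq K V hn, fun _ => 0, fun _ => 0,
      fun k => Subsingleton.elim _ _, fun k => Subsingleton.elim _ _⟩
  | succ n ih =>
    intro V _ _ _ hn W P hW hP ⟨a, ha⟩ ⟨a', ha'⟩ ⟨c, hc⟩ ⟨c', hc'⟩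
    have hnt : Nontrivial V := nontrivial_of_finrank_pos (R := K) (by omega)
    have hbt : (⊥ : Submodule K V) ≠ ⊤ := bot_ne_top
    obtain ⟨m, hm, hmin⟩ := Int.exists_least_of_bdd (P := fun k => W k = ⊤)
      ⟨a, fun z hz => by
        by_contra hlt
        have h1 := hW (show z ≤ a by omega)
        have hz' : W z = ⊤ := hz
        rw [hz', ha] at h1
        exact hbt (top_le_iff.1 h1)⟩ ⟨c, hc⟩
    have hm1 : W (m - 1) ≠ ⊤ := fun h => by
      have := hmin _ h
      omega
    obtain h | ⟨H, hH, hWH⟩ := eq_top_or_exists_le_coatom (W (m - 1))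
    · exact absurd h hm1
    obtain ⟨t, ht, htmin⟩ := Int.exists_least_of_bdd (P := fun k => ¬ P k ≤ H)
      ⟨a', fun z hz => by
        by_contra hlt
        exact hz ((hP (show z ≤ a' by omega)).trans (by rw [ha']; exact bot_le))⟩
      ⟨c', fun h => hH.1 (top_le_iff.1 (hc' ▸ h))⟩
    obtain ⟨y, hyP, hyH⟩ := SetLike.not_le_iff_exists.1 ht
    have hsup : H ⊔ Submodule.span K {y} = ⊤ := by
      apply hH.2
      refine lt_of_le_of_ne le_sup_left fun h => hyH ?_
      rw [h]
      exact Submodule.mem_sup_right (Submodule.mem_span_singleton_self y)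
    have hsp : ∀ z : V, ∃ c : K, z + c • y ∈ H := by
      intro z
      have hz : z ∈ H ⊔ Submodule.span K {y} := by
        rw [hsup]
        trivial
      obtain ⟨x, hx, u, hu, hxu⟩ := Submodule.mem_sup.1 hz
      obtain ⟨d, rfl⟩ := Submodule.mem_span_singleton.1 hu
      refine ⟨-d, ?_⟩
      rw [← hxu, neg_smul, add_neg_cancel_right]
      exact hx
    have hli : ∀ (c : K), ∀ x ∈ H, c • y + x = 0 → c = 0 := by
      intro c x hx h
      by_contra hc
      apply hyH
      have h1 : c • y = -x := eq_neg_of_add_eq_zero_left h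
      have h2 : y = c⁻¹ • (-x) := by rw [← h1, smul_smul, inv_mul_cancel₀ hc, one_smul]
      rw [h2]
      exact H.smul_mem _ (H.neg_mem hx)
    have hfr : finrank K H = n := by
      have h1 := finrank_eq_card_basis (Basis.mkFinCons y (finBasis K H) hli hsp)
      rw [hn, Fintype.card_fin] at h1
      omega
    have hmono : ∀ {Q : ℤ → Submodule K V}, Monotone Q → Monotone fun k => (Q k).comap H.subtype :=
      fun hQ i j hij => Submodule.comap_mono (hQ hij)
    have hbot : ∀ {Q : ℤ → Submodule K V}, (∃ a, Q a = ⊥) →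
        ∃ a, (Q a).comap H.subtype = ⊥ := by
      rintro Q ⟨a, ha⟩
      refine ⟨a, ?_⟩
      rw [ha, Submodule.comap_bot, Submodule.ker_subtype]
    have htop : ∀ {Q : ℤ → Submodule K V}, (∃ a, Q a = ⊤) →
        ∃ a, (Q a).comap H.subtype = ⊤ := by
      rintro Q ⟨a, ha⟩
      exact ⟨a, by rw [ha, Submodule.comap_top]⟩
    obtain ⟨f, w, p, hfw, hfp⟩ := ih hfr (fun k => (W k).comap H.subtype)
      (fun k => (P k).comap H.subtype) (hmono hW) (hmono hP) (hbot ⟨a, ha⟩) (hbot ⟨a', ha'⟩)
      (htop ⟨c, hc⟩) (htop ⟨c', hc'⟩)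
    have himg : ∀ (Q : Submodule K V) (S : Set (Fin n)),
        Q.comap H.subtype = Submodule.span K (f '' S) →
        H ⊓ Q = Submodule.span K ((fun i => (f i : V)) '' S) := by
      intro Q S h
      rw [← Submodule.map_comap_subtype, h, Submodule.map_span, ← Set.image_comp]
      rfl
    have key : ∀ (Q : Submodule K V) (x k : ℤ) (u : Fin n → ℤ),
        Q.comap H.subtype = Submodule.span K (f '' {i | u i ≤ k}) →
        (x ≤ k → y ∈ Q) → (k < x → Q ≤ H) →
        Q = Submodule.span K (Basis.mkFinCons y f hli hsp ''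
          {i | (Fin.cons x u : Fin (n + 1) → ℤ) i ≤ k}) := by
      intro Q x k u h1 h2 h3
      have h4 := himg Q _ h1
      rw [Basis.coe_mkFinCons]
      rcases lt_or_ge k x with hx | hx
      · have h5 : (Fin.cons y ((↑) ∘ f) : Fin (n + 1) → V) ''
            {i | (Fin.cons x u : Fin (n + 1) → ℤ) i ≤ k} = (fun i => (f i : V)) '' {i | u i ≤ k} := by
          ext z
          simp only [Set.mem_image, Set.mem_ofPred_eq, Fin.exists_fin_succ, Fin.cons_zero,
            Fin.cons_succ, Function.comp_apply]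
          constructor
          · rintro (⟨h, -⟩ | h)
            · omega
            · exact h
          · exact fun h => Or.inr h
        rw [h5, ← h4, inf_eq_right.2 (h3 hx)]
      · have h5 : (Fin.cons y ((↑) ∘ f) : Fin (n + 1) → V) ''
            {i | (Fin.cons x u : Fin (n + 1) → ℤ) i ≤ k} =
            insert y ((fun i => (f i : V)) '' {i | u i ≤ k}) := by
          ext z
          simp only [Set.mem_image, Set.mem_ofPred_eq, Fin.exists_fin_succ, Fin.cons_zero,
            Fin.cons_succ, Function.comp_apply, Set.mem_insert_iff]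
          constructor
          · rintro (⟨-, h⟩ | h)
            · exact Or.inl h.symm
            · exact Or.inr h
          · rintro (h | h)
            · exact Or.inl ⟨hx, h.symm⟩
            · exact Or.inr h
        rw [h5, Submodule.span_insert, ← h4]
        apply le_antisymm
        · intro z hz
          obtain ⟨d, hd⟩ := hsp z
          have h6 : z = (-d) • y + (z + d • y) := by
            rw [neg_smul]
            abel
          rw [h6]
          exact Submodule.add_mem_sup (Submodule.smul_mem _ _ (Submodule.mem_span_singleton_self y))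
            ⟨hd, Q.add_mem hz (Q.smul_mem _ (h2 hx))⟩
        · refine sup_le ?_ inf_le_right
          rw [Submodule.span_singleton_le_iff_mem]
          exact h2 hx
    refine ⟨Basis.mkFinCons y f hli hsp, Fin.cons m w, Fin.cons t p, fun k => ?_, fun k => ?_⟩
    · refine key (W k) m k w (hfw k) (fun h => ?_) (fun h => ?_)
      · have h1 := hW h
        have hm' : W m = ⊤ := hm
        rw [hm', top_le_iff] at h1
        rw [h1]
        trivial
      · exact (hW (show k ≤ m - 1 by omega)).trans hWH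
    · refine key (P k) t k p (hfp k) (fun h => hP h hyP) (fun h => ?_)
      by_contra hcon
      have := htmin k hcon
      omega

/-- Sums over the values of a function. -/
theorem finsum_card_fib {G κ : Type*} [Fintype G] (f : G → κ) :
    ∑ᶠ c : κ, (Nat.card {g // f g = c} : ℤ) = Fintype.card G := by
  classical
  rw [finsum_eq_sum_of_support_subset (s := Finset.univ.image f)]
  · have h1 := Finset.card_eq_sum_card_fiberwise (s := (Finset.univ : Finset G)) (f := f)
      (t := Finset.univ.image f) (fun g _ => Finset.mem_coe.2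
        (Finset.mem_image_of_mem _ (Finset.mem_univ _)))
    rw [← Finset.card_univ, h1]
    push_cast
    refine Finset.sum_congr rfl fun c _ => ?_
    rw [Nat.card_eq_fintype_card, Fintype.card_subtype]
  · intro c hc
    rw [Function.mem_support] at hc
    by_contra hcon
    apply hc
    have : IsEmpty {g // f g = c} := ⟨fun g => hcon (by
      rw [Finset.coe_image]
      exact ⟨g.1, Finset.mem_coe.2 (Finset.mem_univ _), g.2⟩)⟩
    rw [Nat.card_of_isEmpty]
    simp

/-- A finite-dimensional space with two increasing filtrations. -/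
structure BiFil (K : Type w) [Field K] where
  /-- the space -/
  V : Type v
  /-- addition -/
  [grp : AddCommGroup V]
  /-- scalars -/
  [mod : Module K V]
  /-- finite dimension -/
  [fin : Module.Finite K V]
  /-- the weight filtration -/
  W : ℤ → Submodule K V
  /-- the perverse filtration -/
  P : ℤ → Submodule K V

attribute [instance] BiFil.grp BiFil.mod BiFil.fin

namespace BiFil

variable {K : Type w} [Field K]

/-- The filtrations are increasing, `W_{-1} = 0`, `W_0 ≠ 0` (the unit class has weight zero),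
`P_{-1} = 0`, `P_0 ≠ 0` (normalisation), and `W_k` and `P_k` are everything for large `k`. -/
structure IsFiltered (A : BiFil.{v, w} K) : Prop where
  W_mono : Monotone A.W
  P_mono : Monotone A.P
  W_neg : A.W (-1) = ⊥
  P_neg : A.P (-1) = ⊥
  W_top : ∃ k, A.W k = ⊤
  P_top : ∃ k, A.P k = ⊤
  W_unit : A.W 0 ≠ ⊥
  P_unit : A.P 0 ≠ ⊥

/-- no odd weights: `W_{2k+1} = W_{2k}` for all `k` -/
def EvenWeights (A : BiFil.{v, w} K) : Prop := ∀ k, A.W (2 * k + 1) = A.W (2 * k)

/-- P=W: `W_{2k} = P_k` for all `k` -/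
def PeqW (A : BiFil.{v, w} K) : Prop := ∀ k, A.W (2 * k) = A.P k

/-- the dimension of `gr^W_k gr^P_j` -/
noncomputable def bigr (A : BiFil.{v, w} K) (k j : ℤ) : ℤ :=
  (finrank K (A.W k ⊓ A.P j : Submodule K A.V) : ℤ) -
    finrank K (A.W (k - 1) ⊓ A.P j : Submodule K A.V) -
    finrank K (A.W k ⊓ A.P (j - 1) : Submodule K A.V) +
    finrank K (A.W (k - 1) ⊓ A.P (j - 1) : Submodule K A.V)

/-- the sum of the dimensions of the `gr^W_{2j+s} gr^P_j` -/
noncomputable def share (A : BiFil.{v, w} K) (s : ℤ) : ℤ := ∑ᶠ j : ℤ, A.bigr (2 * j + s) j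

/-- a basis with weights `w` and perversities `p` of its elements, adapted to both filtrations -/
def Adapted (A : BiFil.{v, w} K) {I : Type} (w p : I → ℤ) : Prop :=
  ∃ e : Basis I K A.V, (∀ k, A.W k = Submodule.span K (e '' {i | w i ≤ k})) ∧
    ∀ k, A.P k = Submodule.span K (e '' {i | p i ≤ k})

theorem IsFiltered.adapted {A : BiFil.{v, w} K} (h : A.IsFiltered) :
    ∃ w p : Fin (finrank K A.V) → ℤ, A.Adapted w p := by
  obtain ⟨e, w, p, h1, h2⟩ := exists_adapted (finrank K A.V) rfl A.W A.P h.W_mono h.P_mono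
    ⟨-1, h.W_neg⟩ ⟨-1, h.P_neg⟩ h.W_top h.P_top
  exact ⟨w, p, e, h1, h2⟩

variable {A : BiFil.{v, w} K} {I : Type} {w p : I → ℤ}

theorem Adapted.reindex (h : A.Adapted w p) {J : Type} (E : I ≃ J) (w' p' : J → ℤ)
    (hw : ∀ i, w' (E i) = w i) (hp : ∀ i, p' (E i) = p i) : A.Adapted w' p' := by
  obtain ⟨e, h1, h2⟩ := h
  have h3 : ∀ (u : I → ℤ) (u' : J → ℤ), (∀ i, u' (E i) = u i) → ∀ k,
      e.reindex E '' {j | u' j ≤ k} = e '' {i | u i ≤ k} := by
    intro u u' hu k
    ext x
    constructor
    · rintro ⟨j, hj, rfl⟩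
      refine ⟨E.symm j, ?_, by rw [Basis.reindex_apply]⟩
      show u (E.symm j) ≤ k
      rw [← hu, E.apply_symm_apply]
      exact hj
    · rintro ⟨i, hi, rfl⟩
      refine ⟨E i, ?_, by rw [Basis.reindex_apply, E.symm_apply_apply]⟩
      show u' (E i) ≤ k
      rw [hu]
      exact hi
  exact ⟨e.reindex E, fun k => by rw [h3 w w' hw, h1], fun k => by rw [h3 p p' hp, h2]⟩

theorem Adapted.mem_W {e : Basis I K A.V} (h : ∀ k, A.W k = Submodule.span K (e '' {i | w i ≤ k}))
    (i : I) (k : ℤ) : e i ∈ A.W k ↔ w i ≤ k := by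
  rw [h, e.mem_span_image]
  have : Nontrivial K := inferInstance
  rw [Basis.repr_self, Finsupp.support_single_ne_zero _ one_ne_zero]
  simp

/-- Equality of two coordinate subspaces. -/
theorem span_eq_iff (e : Basis I K A.V) (S T : Set I) :
    Submodule.span K (e '' S) = Submodule.span K (e '' T) ↔ S = T := by
  constructor
  · intro h
    ext i
    have h1 : ∀ U : Set I, e i ∈ Submodule.span K (e '' U) ↔ i ∈ U := by
      intro U
      rw [e.mem_span_image, Basis.repr_self, Finsupp.support_single_ne_zero _ one_ne_zero]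
      simp
    rw [← h1 S, ← h1 T, h]
  · rintro rfl
    rfl

theorem Adapted.even_iff (h : A.Adapted w p) : A.EvenWeights ↔ ∀ i, Even (w i) := by
  obtain ⟨e, h1, -⟩ := h
  constructor
  · intro H i
    by_contra hcon
    rw [Int.not_even_iff_odd] at hcon
    obtain ⟨k, hk⟩ := hcon
    have h2 := H k
    rw [h1, h1, span_eq_iff] at h2
    have h3 : i ∈ {i | w i ≤ 2 * k + 1} := by
      rw [Set.mem_ofPred_eq, hk]
    rw [h2, Set.mem_ofPred_eq, hk] at h3
    omega
  · intro H k
    rw [h1, h1, span_eq_iff]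
    ext i
    obtain ⟨r, hr⟩ := H i
    simp only [Set.mem_ofPred_eq]
    omega

theorem Adapted.peqw_iff (h : A.Adapted w p) :
    A.PeqW ↔ ∀ i, w i = 2 * p i ∨ w i = 2 * p i - 1 := by
  obtain ⟨e, h1, h2⟩ := h
  constructor
  · intro H i
    have h3 : ∀ k, w i ≤ 2 * k ↔ p i ≤ k := by
      intro k
      have h4 := H k
      rw [h1, h2, span_eq_iff] at h4
      have h5 : i ∈ {i | w i ≤ 2 * k} ↔ i ∈ {i | p i ≤ k} := by rw [h4]
      exact h5
    have h6 := (h3 (p i)).2 le_rfl
    have h7 : ¬ w i ≤ 2 * (p i - 1) := fun h => by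
      have := (h3 (p i - 1)).1 h
      omega
    omega
  · intro H k
    rw [h1, h2, span_eq_iff]
    ext i
    simp only [Set.mem_ofPred_eq]
    rcases H i with h | h
    · omega
    · omega

theorem span_ne_bot (e : Basis I K A.V) {S : Set I} (h : Submodule.span K (e '' S) ≠ ⊥) :
    ∃ i, i ∈ S := by
  by_contra hcon
  push Not at hcon
  have h1 : S = ∅ := Set.eq_empty_iff_forall_notMem.2 hcon
  rw [h1, Set.image_empty, Submodule.span_empty] at h
  exact h rfl

theorem span_eq_bot (e : Basis I K A.V) {S : Set I} (h : Submodule.span K (e '' S) = ⊥) (i : I) :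
    i ∉ S := by
  intro hi
  have h6 : e i ∈ Submodule.span K (e '' S) := Submodule.subset_span ⟨i, hi, rfl⟩
  rw [h, Submodule.mem_bot] at h6
  exact e.ne_zero i h6

theorem Adapted.nonneg (h : A.Adapted w p) (hA : A.IsFiltered) (i : I) : 0 ≤ w i ∧ 0 ≤ p i := by
  obtain ⟨e, h1, h2⟩ := h
  have h3 := span_eq_bot e ((h1 (-1)).symm.trans hA.W_neg) i
  have h4 := span_eq_bot e ((h2 (-1)).symm.trans hA.P_neg) i
  simp only [Set.mem_ofPred_eq, not_le] at h3 h4
  exact ⟨by omega, by omega⟩

theorem Adapted.exists_w (h : A.Adapted w p) (hA : A.IsFiltered) : ∃ i, w i = 0 := by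
  have h0 := fun i => (h.nonneg hA i).1
  obtain ⟨e, h1, -⟩ := h
  have h3 := hA.W_unit
  rw [h1] at h3
  obtain ⟨i, hi⟩ := span_ne_bot e h3
  exact ⟨i, le_antisymm hi (h0 i)⟩

theorem Adapted.exists_p (h : A.Adapted w p) (hA : A.IsFiltered) : ∃ i, p i = 0 := by
  have h0 := fun i => (h.nonneg hA i).2
  obtain ⟨e, -, h2⟩ := h
  have h3 := hA.P_unit
  rw [h2] at h3
  obtain ⟨i, hi⟩ := span_ne_bot e h3
  exact ⟨i, le_antisymm hi (h0 i)⟩

theorem Adapted.bigr_eq [Finite I] (h : A.Adapted w p) (k j : ℤ) :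
    A.bigr k j = Nat.card {i // w i = k ∧ p i = j} := by
  classical
  have := Fintype.ofFinite I
  obtain ⟨e, h1, h2⟩ := h
  have h3 : ∀ k j, finrank K (A.W k ⊓ A.P j : Submodule K A.V) =
      (Finset.univ.filter fun i => w i ≤ k ∧ p i ≤ j).card := by
    intro k j
    rw [h1, h2, Pool.Agent.Y163.MW.span_image_inf, Pool.Agent.Y163.MW.finrank_span_image,
      ← Fintype.card_subtype, ← Nat.card_eq_fintype_card]
    rfl
  have h4 : Nat.card {i // w i = k ∧ p i = j} =
      (Finset.univ.filter fun i => w i = k ∧ p i = j).card := by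
    rw [Nat.card_eq_fintype_card, Fintype.card_subtype]
  have e1 : ∀ j, (Finset.univ.filter fun i => w i ≤ k ∧ p i ≤ j).card =
      (Finset.univ.filter fun i => w i ≤ k - 1 ∧ p i ≤ j).card +
      (Finset.univ.filter fun i => w i = k ∧ p i ≤ j).card := by
    intro j
    rw [← Finset.card_union_of_disjoint]
    · congr 1
      ext i
      simp only [Finset.mem_filter, Finset.mem_univ, true_and, Finset.mem_union]
      omega
    · rw [Finset.disjoint_filter]
      intro i _ h5 h6
      omega
  have e2 : (Finset.univ.filter fun i => w i = k ∧ p i ≤ j).card =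
      (Finset.univ.filter fun i => w i = k ∧ p i ≤ j - 1).card +
      (Finset.univ.filter fun i => w i = k ∧ p i = j).card := by
    rw [← Finset.card_union_of_disjoint]
    · congr 1
      ext i
      simp only [Finset.mem_filter, Finset.mem_univ, true_and, Finset.mem_union]
      omega
    · rw [Finset.disjoint_filter]
      intro i _ h5 h6
      omega
  unfold bigr
  rw [h3, h3, h3, h3, h4, e1 j, e1 (j - 1), e2]
  push_cast
  ring

theorem Adapted.share_eq [Finite I] (h : A.Adapted w p) (s : ℤ) :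
    A.share s = Nat.card {i // w i - 2 * p i = s} := by
  classical
  have := Fintype.ofFinite I
  have h3 : ∀ j : ℤ, A.bigr (2 * j + s) j =
      (Nat.card {g : {i // w i - 2 * p i = s} // p g.1 = j} : ℤ) := by
    intro j
    rw [h.bigr_eq]
    have e1 : Nat.card {g : {i // w i - 2 * p i = s} // p g.1 = j} =
        Nat.card {i // w i - 2 * p i = s ∧ p i = j} :=
      Nat.card_congr (Equiv.subtypeSubtypeEquivSubtypeInter (fun i => w i - 2 * p i = s)
        (fun i => p i = j))
    rw [e1]
    congr 1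
    refine Nat.card_congr (Equiv.subtypeEquivRight fun i => ?_)
    omega
  unfold share
  rw [finsum_congr h3, finsum_card_fib (fun g : {i // w i - 2 * p i = s} => p g.1),
    Nat.card_eq_fintype_card]

/-- the tensor product of two filtrations -/
def convFil {V V' : Type v} [AddCommGroup V] [Module K V] [AddCommGroup V'] [Module K V']
    (F : ℤ → Submodule K V) (F' : ℤ → Submodule K V') (k : ℤ) : Submodule K (V ⊗[K] V') :=
  ⨆ i : ℤ, Submodule.map₂ (TensorProduct.mk K V V') (F i) (F' (k - i))

theorem convFil_eq {V V' : Type v} [AddCommGroup V] [Module K V] [AddCommGroup V'] [Module K V']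
    {F : ℤ → Submodule K V} {F' : ℤ → Submodule K V'} {I J : Type} {e : Basis I K V}
    {e' : Basis J K V'} {a : I → ℤ} {a' : J → ℤ}
    (h : ∀ k, F k = Submodule.span K (e '' {i | a i ≤ k}))
    (h' : ∀ k, F' k = Submodule.span K (e' '' {i | a' i ≤ k})) (k : ℤ) :
    convFil F F' k = Submodule.span K ((e.tensorProduct e') '' {x | a x.1 + a' x.2 ≤ k}) := by
  unfold convFil
  simp only [h, h', Submodule.map₂_span_span]
  rw [← Submodule.span_iUnion]
  congr 1
  ext z
  simp only [Set.mem_iUnion, Set.mem_image2, Set.mem_image, Set.mem_ofPred_eq]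
  constructor
  · rintro ⟨i, _, ⟨x, hx, rfl⟩, _, ⟨y, hy, rfl⟩, rfl⟩
    exact ⟨(x, y), by show a x + a' y ≤ k; omega, by rw [Basis.tensorProduct_apply]; rfl⟩
  · rintro ⟨⟨x, y⟩, hxy, rfl⟩
    refine ⟨a x, _, ⟨x, le_rfl, rfl⟩, _, ⟨y, ?_, rfl⟩, by rw [Basis.tensorProduct_apply]; rfl⟩
    have : a x + a' y ≤ k := hxy
    omega

/-- `C` is the tensor product of `A` and `B`, with both filtrations. -/
def IsTensor (A B C : BiFil.{v, w} K) : Prop :=
  ∃ e : A.V ⊗[K] B.V ≃ₗ[K] C.V,
    (∀ k, C.W k = (convFil A.W B.W k).map (e : A.V ⊗[K] B.V →ₗ[K] C.V)) ∧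
    ∀ k, C.P k = (convFil A.P B.P k).map (e : A.V ⊗[K] B.V →ₗ[K] C.V)

theorem Adapted.prod {A B C : BiFil.{v, w} K} {I J : Type} {w p : I → ℤ}
    {w' p' : J → ℤ} (hA : A.Adapted w p) (hC : IsTensor A B C) (hB : B.Adapted w' p') :
    C.Adapted (fun x : I × J => w x.1 + w' x.2) (fun x : I × J => p x.1 + p' x.2) := by
  obtain ⟨e, h1, h2⟩ := hA
  obtain ⟨e', h1', h2'⟩ := hB
  obtain ⟨κ, hW, hP⟩ := hC
  have h3 : ∀ S : Set (I × J), ((e.tensorProduct e').map κ) '' S =
      (κ : A.V ⊗[K] B.V →ₗ[K] C.V) '' ((e.tensorProduct e') '' S) := by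
    intro S
    rw [← Set.image_comp]
    refine Set.image_congr fun x _ => ?_
    rw [Basis.map_apply]
    rfl
  refine ⟨(e.tensorProduct e').map κ, fun k => ?_, fun k => ?_⟩
  · rw [hW, convFil_eq h1 h1', Submodule.map_span, h3]
  · rw [hP, convFil_eq h2 h2', Submodule.map_span, h3]

end BiFil

end Pool.Agent.Q60.PW
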