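import Pool.Agent.Q60.PW.Core

/-!
# P=W and products of groups
-/

set_option autoImplicit false

open Module TensorProduct

namespace Pool.Agent.Q60.PW

universe u v w

open BiFil

/-- Intersection cohomology of the moduli spaces of a fixed variety `X`, for a class of groups
closed under products, with the weight filtration of the Betti space and the perverse filtration of
the Dolbeault space. -/
structure PWTheory (K : Type w) [Field K] where
  /-- the groups -/
  Grp : Type u
  /-- the product of two groups -/
  prod : Grp → Grp → Grp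
  /-- the intersection cohomology with both filtrations -/
  IH : Grp → BiFil.{v, w} K
  /-- the elementary properties of the filtrations -/
  filtered : ∀ G, (IH G).IsFiltered
  /-- the Künneth formula -/
  kunneth : ∀ G H, BiFil.IsTensor (IH G) (IH H) (IH (prod G H))

namespace PWTheory

variable {K : Type w} [Field K] (T : PWTheory.{u, v, w} K)

/-- Q1 for the group `G` -/
def Q1 (G : T.Grp) : Prop := (T.IH G).EvenWeights

/-- Q2 for the group `G` -/
def Q2 (G : T.Grp) : Prop := (T.IH G).PeqW

/-- the dimension of the intersection cohomology -/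
noncomputable def dim (G : T.Grp) : ℕ := finrank K (T.IH G).V

/-- the product `G 0 × ... × G n` -/
def prods : (n : ℕ) → (Fin (n + 1) → T.Grp) → T.Grp
  | 0, G => G 0
  | n + 1, G => T.prod (G 0) (prods n fun i => G i.succ)

variable {T}

/-- Adapted bases for the products. -/
theorem adapted_prods : ∀ (n : ℕ) (G : Fin (n + 1) → T.Grp)
    (S : Fin (n + 1) → Type) (a c : ∀ j, S j → ℤ), (∀ j, (T.IH (G j)).Adapted (a j) (c j)) →
    (T.IH (T.prods n G)).Adapted (fun g : ∀ j, S j => ∑ j, a j (g j))
      (fun g : ∀ j, S j => ∑ j, c j (g j)) := by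
  intro n
  induction n with
  | zero =>
    intro G S a c H
    have H' : (T.IH (T.prods 0 G)).Adapted (a 0) (c 0) := H 0
    have hu : Unique (Fin (0 + 1)) := inferInstanceAs (Unique (Fin 1))
    let E : (∀ j, S j) ≃ S 0 :=
      { toFun := fun g => g 0
        invFun := fun p j => (Subsingleton.elim 0 j : (0 : Fin (0 + 1)) = j) ▸ p
        left_inv := fun g => by
          funext j
          have : (0 : Fin (0 + 1)) = j := Subsingleton.elim 0 j
          subst this
          rfl
        right_inv := fun p => rfl }
    have h0 : ∀ f : Fin (0 + 1) → ℤ, ∑ j, f j = f 0 := fun f => by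
      rw [Fin.sum_univ_succ]
      simp
    refine H'.reindex E.symm _ _ (fun g => ?_) (fun g => ?_)
    · rw [h0]
      rfl
    · rw [h0]
      rfl
  | succ n ih =>
    intro G S a c H
    have H1 := ih (fun i => G i.succ) (fun j => S j.succ) (fun j => a j.succ)
        (fun j => c j.succ) fun j => H j.succ
    have H' := (H 0).prod (T.kunneth (G 0) (T.prods n fun i => G i.succ)) H1
    show (T.IH (T.prod (G 0) (T.prods n fun i => G i.succ))).Adapted _ _
    refine H'.reindex (Fin.consEquiv S) _ _ (fun g => ?_) (fun g => ?_)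
    · rw [Fin.sum_univ_succ]
      rfl
    · rw [Fin.sum_univ_succ]
      rfl

section words

variable {n : ℕ} {S : Fin n → Type} {u : ∀ j, S j}

theorem sum_update (f : ∀ j, S j → ℤ) (hu : ∀ j, f j (u j) = 0) (i : Fin n) (x : S i) :
    ∑ j, f j (Function.update u i x j) = f i x := by
  rw [Finset.sum_eq_single i]
  · rw [Function.update_self]
  · intro j _ hj
    rw [Function.update_of_ne hj]
    exact hu j
  · intro h
    exact absurd (Finset.mem_univ i) h

theorem sum_update₂ (f : ∀ j, S j → ℤ) (hu : ∀ j, f j (u j) = 0)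
    {i j : Fin n} (hij : i ≠ j) (x : S i) (y : S j) :
    ∑ k, f k (Function.update (Function.update u i x) j y k) = f i x + f j y := by
  rw [← Finset.add_sum_erase _ _ (Finset.mem_univ j), Function.update_self, add_comm]
  congr 1
  rw [Finset.sum_eq_single i]
  · rw [Function.update_of_ne hij, Function.update_self]
  · intro k hk hki
    rw [Function.update_of_ne (Finset.ne_of_mem_erase hk), Function.update_of_ne hki]
    exact hu k
  · intro h
    exact absurd (Finset.mem_erase.2 ⟨hij, Finset.mem_univ i⟩) h

end words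

/-- **Q1 and products.** -/
theorem q1_prods (T : PWTheory.{u, v, w} K) (n : ℕ) (G : Fin (n + 1) → T.Grp) :
    T.Q1 (T.prods n G) ↔ ∀ i, T.Q1 (G i) := by
  choose w p hA using fun j => (T.filtered (G j)).adapted
  choose u hw using fun j => (hA j).exists_w (T.filtered (G j))
  have hP := adapted_prods n G _ w p hA
  unfold Q1
  rw [hP.even_iff]
  simp only [(hA _).even_iff]
  constructor
  · intro H i x
    have h1 := H (Function.update u i x)
    rwa [sum_update w hw] at h1
  · intro H g
    exact Finset.even_sum _ fun j _ => H j (g j)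

/-- **Q2 and products.** -/
theorem q2_prods (T : PWTheory.{u, v, w} K) (n : ℕ) (G : Fin (n + 1) → T.Grp) :
    T.Q2 (T.prods n G) ↔
      (∀ i, T.Q2 (G i)) ∧ ∀ i j, i ≠ j → T.Q1 (G i) ∨ T.Q1 (G j) := by
  choose w p hA using fun j => (T.filtered (G j)).adapted
  choose u hw using fun j => (hA j).exists_w (T.filtered (G j))
  have hP := adapted_prods n G _ w p hA
  unfold Q1 Q2
  rw [hP.peqw_iff]
  simp only [(hA _).even_iff, (hA _).peqw_iff]
  constructor
  · intro H
    have hp : ∀ j, p j (u j) = 0 := by
      have h1 := H u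
      rw [Finset.sum_eq_zero fun j _ => hw j] at h1
      have h2 : ∑ j, p j (u j) = 0 := by omega
      exact fun j => (Finset.sum_eq_zero_iff_of_nonneg
        (fun j _ => ((hA j).nonneg (T.filtered (G j)) (u j)).2)).1 h2 j (Finset.mem_univ j)
    have h0 : ∀ i x, w i x = 2 * p i x ∨ w i x = 2 * p i x - 1 := by
      intro i x
      have h1 := H (Function.update u i x)
      rwa [sum_update w hw, sum_update p hp] at h1
    refine ⟨h0, fun i j hij => ?_⟩
    by_contra hcon
    push Not at hcon
    obtain ⟨⟨x, hx⟩, y, hy⟩ := hcon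
    rw [Int.not_even_iff_odd] at hx hy
    obtain ⟨r, hr⟩ := hx
    obtain ⟨s, hs⟩ := hy
    have h1 := H (Function.update (Function.update u i x) j y)
    rw [sum_update₂ w hw hij, sum_update₂ p hp hij] at h1
    have h2 := h0 i x
    have h3 := h0 j y
    omega
  · rintro ⟨h0, h1⟩ g
    by_cases hodd : ∃ i, ¬ Even (w i (g i))
    · obtain ⟨i, hi⟩ := hodd
      have h2 : ∀ j ∈ Finset.univ.erase i, w j (g j) = 2 * p j (g j) := by
        intro j hj
        rcases h1 i j (Finset.ne_of_mem_erase hj).symm with h3 | h3
        · exact absurd (h3 (g i)) hi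
        · obtain ⟨r, hr⟩ := h3 (g j)
          have := h0 j (g j)
          omega
      rw [← Finset.add_sum_erase _ _ (Finset.mem_univ i),
        ← Finset.add_sum_erase (Finset.univ) (fun j => p j (g j)) (Finset.mem_univ i),
        Finset.sum_congr rfl h2, ← Finset.mul_sum]
      have := h0 i (g i)
      omega
    · push Not at hodd
      left
      rw [Finset.mul_sum]
      refine Finset.sum_congr rfl fun j _ => ?_
      obtain ⟨r, hr⟩ := hodd j
      have := h0 j (g j)
      omega

/-- Q2 for all groups implies Q1 for all groups. -/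
theorem q1_of_q2 (T : PWTheory.{u, v, w} K) (h : ∀ G, T.Q2 G) (G : T.Grp) : T.Q1 G := by
  rcases ((q2_prods T 1 (fun _ => G)).1 (h _)).2 0 1 (by decide) with h1 | h1 <;> exact h1

/-- both questions in terms of an adapted basis -/
theorem both_iff {G : T.Grp} {I : Type} {w p : I → ℤ} (h : (T.IH G).Adapted w p) :
    (T.Q1 G ∧ T.Q2 G) ↔ ∀ i, w i - 2 * p i = 0 := by
  unfold Q1 Q2
  rw [h.even_iff, h.peqw_iff]
  constructor
  · rintro ⟨h1, h2⟩ i
    obtain ⟨r, hr⟩ := h1 i
    have := h2 i
    omega
  · intro H
    refine ⟨fun i => ⟨p i, ?_⟩, fun i => Or.inl ?_⟩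
    · have := H i
      omega
    · have := H i
      omega

/-- Both questions have the answer yes iff everything is in the right place. -/
theorem both_iff_share (T : PWTheory.{u, v, w} K) (G : T.Grp) : (T.Q1 G ∧ T.Q2 G) ↔ (T.IH G).share 0 = T.dim G := by
  classical
  obtain ⟨w, p, h⟩ := (T.filtered G).adapted
  rw [both_iff h, h.share_eq, Nat.card_eq_fintype_card, Fintype.card_subtype]
  have h1 : T.dim G = (Finset.univ : Finset (Fin (finrank K (T.IH G).V))).card := by
    rw [Finset.card_univ, Fintype.card_fin]
    rfl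
  rw [h1, Nat.cast_inj, Finset.card_filter_eq_iff]
  exact ⟨fun H i _ => H i, fun H i => H i (Finset.mem_univ i)⟩

/-- **The Littlewood–Offord law for products of groups.** -/
theorem share_prods (T : PWTheory.{u, v, w} K) (n : ℕ) (G : Fin (n + 1) → T.Grp) (F : Finset (Fin (n + 1)))
    (hF : F.Nonempty) (hfail : ∀ i ∈ F, ¬ (T.Q1 (G i) ∧ T.Q2 (G i))) {b : ℝ}
    (hb : ∀ i ∈ F, (T.dim (G i) : ℝ) ≤ b) (s : ℤ) :
    ((T.IH (T.prods n G)).share s : ℝ) ≤
      √(b / (2 * ((F.card : ℝ) + 1))) * ∏ i, (T.dim (G i) : ℝ) := by
  classical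
  choose w p hA using fun j => (T.filtered (G j)).adapted
  choose u hw using fun j => (hA j).exists_w (T.filtered (G j))
  choose v hv using fun j => (hA j).exists_p (T.filtered (G j))
  have hP := adapted_prods n G _ w p hA
  rw [hP.share_eq]
  have hex : ∀ i, ∃ x y : Fin (finrank K (T.IH (G i)).V), i ∈ F →
      w i x - 2 * p i x + 1 ≤ w i y - 2 * p i y := by
    intro i
    by_cases hi : i ∈ F
    · have h1 := hfail i hi
      rw [both_iff (hA i)] at h1
      push Not at h1
      obtain ⟨x, hx⟩ := h1
      have h2 := hw i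
      have h3 := hv i
      have h4 := ((hA i).nonneg (T.filtered (G i)) (u i)).2
      have h5 := ((hA i).nonneg (T.filtered (G i)) (v i)).1
      rcases lt_or_gt_of_ne hx with h6 | h6
      · exact ⟨x, v i, fun _ => by omega⟩
      · exact ⟨u i, x, fun _ => by omega⟩
    · exact ⟨u i, u i, fun h => absurd h hi⟩
  choose i0 i1 hi using hex
  have hLO := Pool.Agent.Q60.LO.littlewood_offord F i0 i1
    (fun j x => w j x - 2 * p j x) (b := b) (c := 1)
    le_rfl hi hF (fun j hj => by rw [Fintype.card_fin]; exact hb j hj) s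
  have hdim : ∀ i, (T.dim (G i) : ℝ) = (Fintype.card (Fin (finrank K (T.IH (G i)).V)) : ℝ) := by
    intro i
    rw [Fintype.card_fin]
    rfl
  rw [Finset.prod_congr rfl fun i _ => hdim i]
  refine le_trans (le_of_eq ?_) hLO
  rw [Nat.card_eq_fintype_card, Fintype.card_subtype]
  norm_cast
  congr 1
  ext g
  simp only [Finset.mem_filter, Finset.mem_univ, true_and, Pool.Agent.Q60.LO.tot,
    Finset.sum_sub_distrib, ← Finset.mul_sum]
  omega

/-- the total dimension of a product -/
theorem dim_prods (T : PWTheory.{u, v, w} K) (n : ℕ) (G : Fin (n + 1) → T.Grp) :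
    T.dim (T.prods n G) = ∏ i, T.dim (G i) := by
  choose w p hA using fun j => (T.filtered (G j)).adapted
  obtain ⟨e, -, -⟩ := adapted_prods n G _ w p hA
  unfold dim
  rw [finrank_eq_card_basis e, Fintype.card_pi]
  exact Finset.prod_congr rfl fun i _ => Fintype.card_fin _

end PWTheory

end Pool.Agent.Q60.PW
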